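import Mathlib

/-!
# MP_362848_lc : approximate covering of a segment by asynchronous oblivious sensors

We show that approximate covering of the segment is NOT solvable under the ASYNC scheduler with
neighbour visibility: for every protocol the adversary can make two moving sensors meet and keep
them together for ever.
-/

namespace Pool.Agent.Results.MP_362848_lc.AsyncImpossible

open Classical in
/-- The least element of a set of reals, if there is one. -/
noncomputable def least (S : Set ℝ) : Option ℝ :=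
  if h : ∃ r, IsLeast S r then some h.choose else none

/-- What a sensor sees, in its own coordinates: the distance to the nearest sensor strictly on its
left (if any), the distance to the nearest sensor strictly on its right (if any), and the number
of sensors at its own position (itself included). -/
structure Snapshot where
  /-- distance to the nearest sensor on the left -/
  left : Option ℝ
  /-- distance to the nearest sensor on the right -/
  right : Option ℝ
  /-- number of sensors at its own position -/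
  mult : ℕ

/-- A (deterministic, oblivious) protocol: it gives the destination, in the coordinates of the
sensor (origin at its own position), as a function of the snapshot. -/
abbrev Protocol := Snapshot → ℝ

variable {n : ℕ}

/-- The distances, measured in multiples of `c`, from sensor `i` to the sensors strictly on the
side of it given by the sign of `c`. -/
def side (x : Fin (n + 1) → ℝ) (i : Fin (n + 1)) (c : ℝ) : Set ℝ :=
  {r | 0 < r ∧ ∃ j, x j = x i + c * r}

open Classical in
/-- The snapshot of sensor `i` in the configuration `x`. The local coordinate system of the sensor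
is given by the non-zero real `c`: its point `y` is the point `x i + c * y` of the line, so that
`|c|` is its unit of length and the sign of `c` is its orientation. -/
noncomputable def snap (x : Fin (n + 1) → ℝ) (i : Fin (n + 1)) (c : ℝ) : Snapshot :=
  ⟨least (side x i (-c)), least (side x i c), (Finset.univ.filter fun j => x j = x i).card⟩

/-- The destination computed by sensor `i` when it looks at the configuration `x`. -/
noncomputable def dest (F : Protocol) (c : Fin (n + 1) → ℝ) (x : Fin (n + 1) → ℝ)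
    (i : Fin (n + 1)) : ℝ :=
  x i + c i * F (snap x i (c i))

/-- One time step of one sensor. The state of a sensor is its position and `none` if it is
inactive (between two cycles), or `some (a, b)` if it has looked from position `a`, has computed
the destination `b` and has not finished its move. `D` is the destination it would compute now.
* `rest`: nothing happens (in any phase);
* `look`: an inactive sensor takes its snapshot and computes its destination;
* `move`: it goes some part of the way to its destination (possibly nothing), without finishing;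
* `stop`: it goes some part of the way to its destination and the cycle ends there; this is allowed
  only at the destination or at distance at least `δ` from the point where the move started. -/
inductive SStep (δ D : ℝ) : ℝ → Option (ℝ × ℝ) → ℝ → Option (ℝ × ℝ) → Prop
  | rest (x : ℝ) (p : Option (ℝ × ℝ)) : SStep δ D x p x p
  | look (x : ℝ) : SStep δ D x none x (some (x, D))
  | move (x x' a b : ℝ) (h : x' ∈ segment ℝ x b) : SStep δ D x (some (a, b)) x' (some (a, b))
  | stop (x x' a b : ℝ) (h : x' ∈ segment ℝ x b) (h' : x' = b ∨ δ ≤ |x' - a|) :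
      SStep δ D x (some (a, b)) x' none

/-- An admissible ASYNC execution of the protocol `F` by the `n + 1` sensors `0, …, n` with local
coordinate systems `c 0, …, c n` and least moving distance `δ`. Time is cut at the events of the
execution; between two consecutive integer times every sensor rests or moves linearly. -/
structure Execution (F : Protocol) (n : ℕ) (c : Fin (n + 1) → ℝ) (δ : ℝ) where
  /-- positions at integer times -/
  pos : ℕ → Fin (n + 1) → ℝ
  /-- phases at integer times -/
  act : ℕ → Fin (n + 1) → Option (ℝ × ℝ)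
  start_mono : StrictMono (pos 0)
  start_idle : ∀ i, act 0 i = none
  left_end : ∀ t, pos t 0 = 0
  right_end : ∀ t, pos t (Fin.last n) = 1
  step : ∀ t i, i ≠ 0 → i ≠ Fin.last n →
    SStep δ (dest F c (pos t) i) (pos t i) (act t i) (pos (t + 1) i) (act (t + 1) i)
  cycles : ∀ i, i ≠ 0 → i ≠ Fin.last n → ∀ T, ∃ t ≥ T, act t i ≠ none ∧ act (t + 1) i = none

/-- The position of sensor `i` at the real time `t + θ`, `0 ≤ θ ≤ 1`. -/
noncomputable def Execution.posAt {F : Protocol} {c : Fin (n + 1) → ℝ} {δ : ℝ}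
    (E : Execution F n c δ) (t : ℕ) (θ : ℝ) (i : Fin (n + 1)) : ℝ :=
  (1 - θ) * E.pos t i + θ * E.pos (t + 1) i

/-- The configuration `y` of `n + 1` sensors is an `ε`-approximate covering (`d = 1 / n`). -/
def Covering (n : ℕ) (ε : ℝ) (y : Fin (n + 1) → ℝ) : Prop :=
  ∀ i : Fin n, 1 / (n : ℝ) - ε ≤ |y i.succ - y i.castSucc| ∧
    |y i.succ - y i.castSucc| ≤ 1 / (n : ℝ) + ε

/-- Approximate covering is solvable under ASYNC with neighbour visibility: some protocol
guarantees, for every number of sensors, every choice of local coordinate systems, every least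
moving distance, every admissible execution (from any initial placement) and every `ε > 0`, that an
`ε`-approximate covering is reached at some (real) time. -/
def Solvable : Prop :=
  ∃ F : Protocol, ∀ n ≥ 1, ∀ c : Fin (n + 1) → ℝ, (∀ i, c i ≠ 0) → ∀ δ > 0,
    ∀ E : Execution F n c δ, ∀ ε > 0, ∃ t θ, 0 ≤ θ ∧ θ ≤ 1 ∧ Covering n ε (E.posAt t θ)

/-! ### Snapshots -/

theorem least_eq {S : Set ℝ} {r : ℝ} (h : IsLeast S r) : least S = some r := by
  have h' : ∃ r, IsLeast S r := ⟨r, h⟩
  rw [least, dif_pos h']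
  congr 1
  exact h'.choose_spec.unique h

theorem least_congr {S T : Set ℝ} (hTS : T ⊆ S) (h : ∀ r ∈ S, r ∉ T → ∃ r' ∈ T, r' < r) :
    least S = least T := by
  have key : ∀ r, IsLeast S r ↔ IsLeast T r := by
    intro r
    constructor
    · rintro ⟨h1, h2⟩
      refine ⟨?_, fun t ht => h2 (hTS ht)⟩
      by_contra hr
      obtain ⟨r', h3, h4⟩ := h r h1 hr
      exact absurd (h2 (hTS h3)) (not_le.2 h4)
    · rintro ⟨h1, h2⟩
      refine ⟨hTS h1, fun t ht => ?_⟩
      by_cases htT : t ∈ T
      · exact h2 htT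
      · obtain ⟨r', h3, h4⟩ := h t ht htT
        exact (h2 h3).trans h4.le
  by_cases hex : ∃ r, IsLeast T r
  · obtain ⟨r, hr⟩ := hex
    rw [least_eq hr, least_eq ((key r).2 hr)]
  · have hex' : ¬ ∃ r, IsLeast S r := fun ⟨r, hr⟩ => hex ⟨r, (key r).1 hr⟩
    rw [least, least, dif_neg hex, dif_neg hex']

/-- A configuration `X` of `n + 2` sensors whose sensor `0` is on the left of sensor `1`, which is
on the left of sensor `j.succ`: sensor `j.succ` sees what sensor `j` sees in the rescaled
configuration `Y` of the sensors `1, 2, …`. -/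
theorem side_sub {X : Fin (n + 2) → ℝ} {Y : Fin (n + 1) → ℝ} {p q : ℝ} (hq : 0 < q)
    (hX0 : X 0 < p) (hY0 : Y 0 = 0) (hX : ∀ j : Fin (n + 1), X j.succ = p + q * Y j)
    (j : Fin (n + 1)) (hj : 0 < Y j) (c : ℝ) :
    least (side X j.succ c) = least (side Y j (c / q)) := by
  apply least_congr
  · rintro r ⟨hr, k, hk⟩
    refine ⟨hr, k.succ, ?_⟩
    rw [hX, hX, hk]
    field_simp
    ring
  · rintro r ⟨hr, k, hk⟩ hn
    rcases Fin.eq_zero_or_eq_succ k with rfl | ⟨k, rfl⟩
    · -- only sensor 0 is missing; then sensor 1 is nearer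
      have hc : c < 0 := by
        have h1 : X 0 < X j.succ := by
          rw [hX]; nlinarith [mul_pos hq hj]
        by_contra hc
        push Not at hc
        nlinarith [mul_nonneg hc hr.le]
      refine ⟨(p - X j.succ) / c, ⟨div_pos_of_neg_of_neg ?_ hc, 0, ?_⟩, ?_⟩
      · rw [hX]; nlinarith [mul_pos hq hj]
      · have hc0 : c ≠ 0 := hc.ne
        rw [hY0, hX]
        field_simp
        ring
      · rw [div_lt_iff_of_neg hc]
        have : c * r = X 0 - X j.succ := by rw [hk]; ring
        nlinarith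
    · exfalso
      apply hn
      refine ⟨hr, k, ?_⟩
      rw [hX, hX] at hk
      field_simp
      linarith

open Classical in
theorem mult_sub {X : Fin (n + 2) → ℝ} {Y : Fin (n + 1) → ℝ} {p q : ℝ} (hq : 0 < q)
    (hX0 : X 0 < p) (hX : ∀ j : Fin (n + 1), X j.succ = p + q * Y j)
    (j : Fin (n + 1)) (hj : 0 < Y j) :
    (Finset.univ.filter fun k => X k = X j.succ).card
      = (Finset.univ.filter fun k => Y k = Y j).card := by
  rw [Finset.card_filter, Finset.card_filter, Fin.sum_univ_succ]
  have h0 : X 0 ≠ X j.succ := by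
    have : X 0 < X j.succ := by rw [hX]; nlinarith [mul_pos hq hj]
    exact this.ne
  rw [if_neg h0, zero_add]
  apply Finset.sum_congr rfl
  intro k _
  have : X k.succ = X j.succ ↔ Y k = Y j := by
    rw [hX, hX]
    constructor
    · intro h
      have : q * Y k = q * Y j := by linarith
      exact mul_left_cancel₀ hq.ne' this
    · intro h; rw [h]
  simp only [this]

theorem snap_sub {X : Fin (n + 2) → ℝ} {Y : Fin (n + 1) → ℝ} {p q : ℝ} (hq : 0 < q)
    (hX0 : X 0 < p) (hY0 : Y 0 = 0) (hX : ∀ j : Fin (n + 1), X j.succ = p + q * Y j)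
    (j : Fin (n + 1)) (hj : 0 < Y j) (c : ℝ) :
    snap X j.succ c = snap Y j (c / q) := by
  unfold snap
  rw [side_sub hq hX0 hY0 hX j hj c, side_sub hq hX0 hY0 hX j hj (-c),
    mult_sub hq hX0 hX j hj, neg_div]

/-! ### Building executions in rounds of two steps -/

/-- An execution in which nobody moves in the steps `2k → 2k+1`. -/
noncomputable def mkExec (F : Protocol) (c : Fin (n + 1) → ℝ) (δ : ℝ)
    (Z : ℕ → Fin (n + 1) → ℝ) (e o : ℕ → Fin (n + 1) → Option (ℝ × ℝ))
    (h0 : StrictMono (Z 0)) (he : ∀ i, e 0 i = none) (hl : ∀ k, Z k 0 = 0)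
    (hr : ∀ k, Z k (Fin.last n) = 1)
    (h1 : ∀ k i, i ≠ 0 → i ≠ Fin.last n →
      SStep δ (dest F c (Z k) i) (Z k i) (e k i) (Z k i) (o k i))
    (h2 : ∀ k i, i ≠ 0 → i ≠ Fin.last n →
      SStep δ (dest F c (Z k) i) (Z k i) (o k i) (Z (k + 1) i) (e (k + 1) i))
    (h3 : ∀ i, i ≠ 0 → i ≠ Fin.last n → ∀ K, ∃ k ≥ K, o k i ≠ none ∧ e (k + 1) i = none) :
    Execution F n c δ where
  pos t := Z (t / 2)
  act t i := if t % 2 = 0 then e (t / 2) i else o (t / 2) i
  start_mono := by simpa using h0
  start_idle := by simpa using he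
  left_end t := hl _
  right_end t := hr _
  step t i hi hi' := by
    rcases Nat.even_or_odd' t with ⟨k, rfl | rfl⟩
    · have e1 : 2 * k / 2 = k := by omega
      have e2 : (2 * k + 1) / 2 = k := by omega
      have e3 : 2 * k % 2 = 0 := by omega
      have e4 : (2 * k + 1) % 2 = 1 := by omega
      rw [e1, e2, e3, e4]
      simpa using h1 k i hi hi'
    · have e1 : (2 * k + 1 + 1) / 2 = k + 1 := by omega
      have e2 : (2 * k + 1) / 2 = k := by omega
      have e3 : (2 * k + 1 + 1) % 2 = 0 := by omega
      have e4 : (2 * k + 1) % 2 = 1 := by omega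
      rw [e1, e2, e3, e4]
      simpa using h2 k i hi hi'
  cycles i hi hi' T := by
    obtain ⟨k, hk, h4, h5⟩ := h3 i hi hi' T
    refine ⟨2 * k + 1, by omega, ?_, ?_⟩
    · have e2 : (2 * k + 1) / 2 = k := by omega
      have e4 : (2 * k + 1) % 2 = 1 := by omega
      rw [e2, e4]
      simpa using h4
    · have e1 : (2 * k + 1 + 1) / 2 = k + 1 := by omega
      have e3 : (2 * k + 1 + 1) % 2 = 0 := by omega
      rw [e1, e3]
      simpa using h5

/-- The configuration after one synchronous round. -/
noncomputable def next (F : Protocol) (c : Fin (n + 1) → ℝ) (x : Fin (n + 1) → ℝ) :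
    Fin (n + 1) → ℝ :=
  fun i => if i = 0 ∨ i = Fin.last n then x i else dest F c x i

theorem next_inner (F : Protocol) (c : Fin (n + 1) → ℝ) (x : Fin (n + 1) → ℝ)
    {i : Fin (n + 1)} (h : i ≠ 0) (h' : i ≠ Fin.last n) : next F c x i = dest F c x i := by
  simp [next, h, h']

theorem iter_zero (F : Protocol) (c : Fin (n + 1) → ℝ) (x : Fin (n + 1) → ℝ) (k : ℕ) :
    (next F c)^[k] x 0 = x 0 := by
  induction k with
  | zero => rfl
  | succ k ih => rw [Function.iterate_succ_apply']; simp [next, ih]

theorem iter_last (F : Protocol) (c : Fin (n + 1) → ℝ) (x : Fin (n + 1) → ℝ) (k : ℕ) :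
    (next F c)^[k] x (Fin.last n) = x (Fin.last n) := by
  induction k with
  | zero => rfl
  | succ k ih => rw [Function.iterate_succ_apply']; simp [next, ih]

/-- The fully synchronous execution. -/
noncomputable def syncExec (F : Protocol) (c : Fin (n + 1) → ℝ) (δ : ℝ)
    (x : Fin (n + 1) → ℝ) (h0 : StrictMono x) (hl : x 0 = 0) (hr : x (Fin.last n) = 1) :
    Execution F n c δ :=
  mkExec F c δ (fun k => (next F c)^[k] x) (fun _ _ => none)
    (fun k i => some ((next F c)^[k] x i, dest F c ((next F c)^[k] x) i)) h0 (fun _ => rfl)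
    (fun k => by rw [iter_zero, hl]) (fun k => by rw [iter_last, hr])
    (fun k i _ _ => SStep.look _)
    (fun k i hi hi' => by
      rw [Function.iterate_succ_apply', next_inner F c _ hi hi']
      exact SStep.stop _ _ _ _ (right_mem_segment ℝ _ _) (Or.inl rfl))
    (fun i _ _ K => ⟨K, le_refl _, by simp, rfl⟩)

/-! ### Coverings have no two sensors at the same place -/

theorem covering_bound {ε : ℝ} {y : Fin (n + 1) → ℝ} (h : Covering n ε y) (a : Fin (n + 1)) :
    ∀ m : ℕ, ∀ hm : a.val + m < n + 1, y ⟨a.val + m, hm⟩ - y a ≤ m * (1 / (n : ℝ) + ε) := by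
  intro m
  induction m with
  | zero => intro hm; simp
  | succ m ih =>
    intro hm
    have h1 := ih (by omega)
    have h2 := (h ⟨a.val + m, by omega⟩).2
    have h3 : y (⟨a.val + m, by omega⟩ : Fin n).succ = y ⟨a.val + (m + 1), hm⟩ := rfl
    have h4 : y (⟨a.val + m, by omega⟩ : Fin n).castSucc = y ⟨a.val + m, by omega⟩ := rfl
    rw [h3, h4] at h2
    have h5 := le_abs_self (y ⟨a.val + (m + 1), hm⟩ - y ⟨a.val + m, by omega⟩)
    push_cast
    linarith

theorem not_covering_of_meet {ε : ℝ} {y : Fin (n + 1) → ℝ} (hn : 1 ≤ n) (hε : 0 < ε)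
    (hε' : n * (n * ε) < 1 + n * ε) (h0 : y 0 = 0) (h1 : y (Fin.last n) = 1)
    {a b : Fin (n + 1)} (hab : a < b) (hy : y a = y b) : ¬ Covering n ε y := by
  intro h
  have e1 := covering_bound h 0 a.val (by simp [a.2])
  have e2 := covering_bound h b (n - b.val) (by omega)
  have f1 : y ⟨(0 : Fin (n + 1)).val + a.val, by simp [a.2]⟩ = y a := by
    congr 1; ext; simp
  have f2 : y ⟨b.val + (n - b.val), by omega⟩ = y (Fin.last n) := by
    congr 1; ext; simp; omega
  rw [f1, h0] at e1
  rw [f2, h1] at e2
  have hb : b.val ≤ n := by omega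
  have hab' : a.val < b.val := hab
  have e3 : (a.val : ℝ) + ((n - b.val : ℕ) : ℝ) ≤ (n : ℝ) - 1 := by
    have : a.val + (n - b.val) + 1 ≤ n := by omega
    have : ((a.val + (n - b.val) + 1 : ℕ) : ℝ) ≤ n := by exact_mod_cast this
    push_cast at this ⊢
    linarith
  have hn0 : (0 : ℝ) < n := by exact_mod_cast hn
  have e4 : (1 : ℝ) ≤ ((a.val : ℝ) + ((n - b.val : ℕ) : ℝ)) * (1 / (n : ℝ) + ε) := by
    linarith
  have e5 : ((a.val : ℝ) + ((n - b.val : ℕ) : ℝ)) * (1 / (n : ℝ) + ε)
      ≤ ((n : ℝ) - 1) * (1 / (n : ℝ) + ε) := by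
    apply mul_le_mul_of_nonneg_right e3
    positivity
  have e6 : ((n : ℝ) - 1) * (1 / (n : ℝ) + ε) * n < n := by
    have : ((n : ℝ) - 1) * (1 / (n : ℝ) + ε) * n = ((n : ℝ) - 1) * (1 + n * ε) := by
      field_simp
    rw [this]
    nlinarith
  have e7 : (n : ℝ) ≤ ((n : ℝ) - 1) * (1 / (n : ℝ) + ε) * n := by
    have := e4.trans e5
    nlinarith
  linarith

/-! ### Three sensors: the middle one has to move -/

theorem fin3_cases (k : Fin 3) : k = 0 ∨ k = 1 ∨ k = 2 := by
  fin_cases k <;> simp

theorem three (F : Protocol)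
    (H : ∀ n ≥ 1, ∀ c : ℝ, c ≠ 0 → ∀ δ > 0, ∀ E : Execution F n (fun _ => c) δ, ∀ ε > 0,
      ∃ t θ, 0 ≤ θ ∧ θ ≤ 1 ∧ Covering n ε (E.posAt t θ)) :
    F ⟨some (1 / 4), some (3 / 4), 1⟩ ≠ 0 := by
  intro hF
  set x : Fin 3 → ℝ := ![0, 1 / 4, 1] with hx
  have hmono : StrictMono x := by
    intro a b hab
    fin_cases a <;> fin_cases b <;> simp [hx] at hab ⊢ <;> norm_num
  have hsnap : snap x 1 1 = ⟨some (1 / 4), some (3 / 4), 1⟩ := by
    unfold snap
    have e1 : least (side x 1 (-1)) = some (1 / 4) := by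
      apply least_eq
      refine ⟨⟨by norm_num, 0, by simp [hx]⟩, ?_⟩
      rintro r ⟨hr, j, hj⟩
      rcases fin3_cases j with rfl | rfl | rfl <;> simp [hx] at hj <;> linarith
    have e2 : least (side x 1 1) = some (3 / 4) := by
      apply least_eq
      refine ⟨⟨by norm_num, 2, by simp [hx]; norm_num⟩, ?_⟩
      rintro r ⟨hr, j, hj⟩
      rcases fin3_cases j with rfl | rfl | rfl <;> simp [hx] at hj <;> linarith
    rw [e1, e2]
    congr 1
    have : (Finset.univ.filter fun j => x j = x 1) = {1} := by
      ext j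
      simp only [Finset.mem_filter, Finset.mem_univ, true_and, Finset.mem_singleton]
      exact ⟨fun h => hmono.injective h, fun h => by rw [h]⟩
    rw [this]; rfl
  have hnext : next F (fun _ => (1 : ℝ)) x = x := by
    funext i
    rcases fin3_cases i with rfl | rfl | rfl
    · simp [next]
    · rw [next_inner F _ x (by decide) (by decide)]
      rw [dest, hsnap, hF]; ring
    · have : (2 : Fin 3) = Fin.last 2 := rfl
      simp [next, this]
  have hiter : ∀ k, (next F (fun _ => (1 : ℝ)))^[k] x = x := by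
    intro k
    induction k with
    | zero => rfl
    | succ k ih => rw [Function.iterate_succ_apply', ih, hnext]
  obtain ⟨t, θ, -, -, hcov⟩ := H 2 (by norm_num) 1 one_ne_zero 1 one_pos
    (syncExec F (fun _ => 1) 1 x hmono rfl rfl) (1 / 8) (by norm_num)
  have h1 := (hcov 0).1
  have h2 : ∀ i, (syncExec F (fun _ => 1) 1 x hmono rfl rfl).posAt t θ i = x i := by
    intro i
    simp only [Execution.posAt, syncExec, mkExec, hiter]
    ring
  rw [h2, h2] at h1
  have h3 : x (0 : Fin 2).succ = 1 / 4 := rfl
  have h4 : x (0 : Fin 2).castSucc = 0 := rfl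
  rw [h3, h4] at h1
  norm_num [abs_of_pos] at h1

/-! ### The main argument -/

/-- The initial placement: `0`, `p`, then `n + 1` equally spaced points from `1 / 2` to `1`. -/
noncomputable def X0 (n : ℕ) (p : ℝ) : Fin (n + 3) → ℝ :=
  fun i => if i.val = 0 then 0 else if i.val = 1 then p else
    1 / 2 + ((i.val : ℝ) - 2) / (2 * n)

theorem X0_mono {n : ℕ} (hn : 1 ≤ n) {p : ℝ} (hp : 0 < p) (hp' : p < 1 / 2) :
    StrictMono (X0 n p) := by
  have hn' : (0 : ℝ) < n := by exact_mod_cast hn
  intro a b hab
  have hab' : a.val < b.val := hab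
  have key : ∀ m : ℕ, 2 ≤ m → (1 : ℝ) / 2 ≤ 1 / 2 + ((m : ℝ) - 2) / (2 * n) := by
    intro m hm
    have : (2 : ℝ) ≤ m := by exact_mod_cast hm
    have : 0 ≤ ((m : ℝ) - 2) / (2 * n) := div_nonneg (by linarith) (by positivity)
    linarith
  unfold X0
  rcases Nat.lt_or_ge a.val 1 with h | h
  · have ha : a.val = 0 := by omega
    rcases Nat.lt_or_ge b.val 2 with h' | h'
    · have hb : b.val = 1 := by omega
      simp [ha, hb, hp]
    · have hb : b.val ≠ 0 := by omega
      have hb' : b.val ≠ 1 := by omega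
      have := key b.val h'
      simp only [ha, hb, hb', if_true, if_false]
      linarith
  · rcases Nat.lt_or_ge a.val 2 with h2 | h2
    · have ha : a.val = 1 := by omega
      have hb : b.val ≠ 0 := by omega
      have hb' : b.val ≠ 1 := by omega
      have := key b.val (by omega)
      simp only [ha, hb, hb', if_true, if_false, one_ne_zero]
      linarith
    · have ha : a.val ≠ 0 := by omega
      have ha' : a.val ≠ 1 := by omega
      have hb : b.val ≠ 0 := by omega
      have hb' : b.val ≠ 1 := by omega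
      simp only [ha, ha', hb, hb', if_false]
      have : (a.val : ℝ) < b.val := by exact_mod_cast hab'
      have := div_lt_div_of_pos_right (show (a.val : ℝ) - 2 < b.val - 2 by linarith)
        (show (0 : ℝ) < 2 * n by positivity)
      linarith

theorem X0_last {n : ℕ} (hn : 1 ≤ n) (p : ℝ) : X0 n p (Fin.last (n + 2)) = 1 := by
  have hn' : (n : ℝ) ≠ 0 := by
    have : n ≠ 0 := by omega
    exact_mod_cast this
  have h1 : (Fin.last (n + 2)).val = n + 2 := rfl
  unfold X0
  rw [h1, if_neg (by omega), if_neg (by omega)]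
  push_cast
  field_simp
  ring

theorem X0_ge {n : ℕ} (hn : 1 ≤ n) {p : ℝ} (i : Fin (n + 3))
    (hi : 2 ≤ i.val) : 1 / 2 ≤ X0 n p i := by
  have hn' : (0 : ℝ) < n := by exact_mod_cast hn
  have h1 : i.val ≠ 0 := by omega
  have h2 : i.val ≠ 1 := by omega
  unfold X0
  simp only [h1, h2, if_false]
  have : (2 : ℝ) ≤ i.val := by exact_mod_cast hi
  have : 0 ≤ ((i.val : ℝ) - 2) / (2 * n) := div_nonneg (by linarith) (by positivity)
  linarith

/-- The snapshot of sensor `1` in the initial placement. -/
theorem snap_one {n : ℕ} (hn : 1 ≤ n) (s : ℝ) (p : ℝ)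
    (hs : (s = 1 ∧ p = 1 / 8) ∨ (s = -1 ∧ p = 3 / 8)) :
    snap (X0 n p) 1 (s / 2) = ⟨some (1 / 4), some (3 / 4), 1⟩ := by
  have hp : 0 < p := by rcases hs with ⟨-, rfl⟩ | ⟨-, rfl⟩ <;> norm_num
  have hp' : p < 1 / 2 := by rcases hs with ⟨-, rfl⟩ | ⟨-, rfl⟩ <;> norm_num
  have hmono := X0_mono hn hp hp'
  have v0 : X0 n p 0 = 0 := by simp [X0]
  have v1 : X0 n p 1 = p := by simp [X0]
  have v2 : X0 n p 2 = 1 / 2 := by
    simp [X0, Nat.mod_eq_of_lt (show 2 < n + 3 by omega)]
  have hge := fun i hi => X0_ge hn (p := p) i hi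
  have hcases : ∀ j : Fin (n + 3), j = 0 ∨ j = 1 ∨ 2 ≤ j.val := by
    intro j
    by_cases h0 : j = 0
    · exact Or.inl h0
    by_cases h1 : j = 1
    · exact Or.inr (Or.inl h1)
    · right; right
      have h0' : j.val ≠ 0 := fun h => h0 (Fin.ext h)
      have h1' : j.val ≠ 1 := fun h => h1 (Fin.ext (by simpa using h))
      omega
  unfold snap
  have e3 : (Finset.univ.filter fun j => X0 n p j = X0 n p 1) = {1} := by
    ext j
    simp only [Finset.mem_filter, Finset.mem_univ, true_and, Finset.mem_singleton]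
    exact ⟨fun h => hmono.injective h, fun h => by rw [h]⟩
  rw [e3]
  rcases hs with ⟨rfl, rfl⟩ | ⟨rfl, rfl⟩
  · have e1 : least (side (X0 n (1 / 8)) 1 (-(1 / 2))) = some (1 / 4) := by
      apply least_eq
      refine ⟨⟨by norm_num, 0, by rw [v0, v1]; norm_num⟩, ?_⟩
      rintro r ⟨hr, j, hj⟩
      rcases hcases j with rfl | rfl | h
      · rw [v0, v1] at hj; linarith
      · linarith
      · have := hge j h; rw [v1] at hj; linarith
    have e2 : least (side (X0 n (1 / 8)) 1 (1 / 2)) = some (3 / 4) := by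
      apply least_eq
      refine ⟨⟨by norm_num, 2, by rw [v2, v1]; norm_num⟩, ?_⟩
      rintro r ⟨hr, j, hj⟩
      rcases hcases j with rfl | rfl | h
      · rw [v0, v1] at hj; linarith
      · linarith
      · have := hge j h; rw [v1] at hj; linarith
    rw [e1, e2]; rfl
  · have e1 : least (side (X0 n (3 / 8)) 1 (-(-1 / 2))) = some (1 / 4) := by
      apply least_eq
      refine ⟨⟨by norm_num, 2, by rw [v2, v1]; norm_num⟩, ?_⟩
      rintro r ⟨hr, j, hj⟩
      rcases hcases j with rfl | rfl | h
      · rw [v0, v1] at hj; linarith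
      · linarith
      · have := hge j h; rw [v1] at hj; linarith
    have e2 : least (side (X0 n (3 / 8)) 1 (-1 / 2)) = some (3 / 4) := by
      apply least_eq
      refine ⟨⟨by norm_num, 0, by rw [v0, v1]; norm_num⟩, ?_⟩
      rintro r ⟨hr, j, hj⟩
      rcases hcases j with rfl | rfl | h
      · rw [v0, v1] at hj; linarith
      · linarith
      · have := hge j h; rw [v1] at hj; linarith
    rw [e1, e2]; rfl

theorem seg_mem {x b y : ℝ} (h : (x ≤ y ∧ y ≤ b) ∨ (b ≤ y ∧ y ≤ x)) : y ∈ segment ℝ x b := by
  rcases h with ⟨h1, h2⟩ | ⟨h1, h2⟩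
  · rw [segment_eq_Icc (h1.trans h2)]; exact ⟨h1, h2⟩
  · rw [segment_symm, segment_eq_Icc (h1.trans h2)]; exact ⟨h1, h2⟩

set_option maxHeartbeats 4000000 in
theorem main (F : Protocol) :
    ∃ n ≥ 1, ∃ c : ℝ, c ≠ 0 ∧ ∃ δ > 0, ∃ E : Execution F n (fun _ => c) δ, ∃ ε > 0,
      ∀ t θ, 0 ≤ θ → θ ≤ 1 → ¬ Covering n ε (E.posAt t θ) := by
  by_contra H0
  have H : ∀ n ≥ 1, ∀ c : ℝ, c ≠ 0 → ∀ δ > 0, ∀ E : Execution F n (fun _ => c) δ, ∀ ε > 0,
      ∃ t θ, 0 ≤ θ ∧ θ ≤ 1 ∧ Covering n ε (E.posAt t θ) := by
    intro n hn c hc δ hδ E ε hε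
    by_contra hcon
    push Not at hcon
    exact H0 ⟨n, hn, c, hc, δ, hδ, E, ε, hε, fun t θ h1 h2 => hcon t θ h1 h2⟩
  clear H0
  have hm := three F H
  set m : ℝ := F ⟨some (1 / 4), some (3 / 4), 1⟩ with hmdef
  -- the common coordinate system
  obtain ⟨s, p, hsp, hsm⟩ : ∃ s p : ℝ, ((s = 1 ∧ p = 1 / 8) ∨ (s = -1 ∧ p = 3 / 8)) ∧ 0 < s * m := by
    rcases lt_or_gt_of_ne hm with h | h
    · exact ⟨-1, 3 / 8, Or.inr ⟨rfl, rfl⟩, by linarith⟩
    · exact ⟨1, 1 / 8, Or.inl ⟨rfl, rfl⟩, by linarith⟩
  have hp : 1 / 8 ≤ p := by rcases hsp with ⟨-, rfl⟩ | ⟨-, rfl⟩ <;> norm_num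
  have hp' : p ≤ 3 / 8 := by rcases hsp with ⟨-, rfl⟩ | ⟨-, rfl⟩ <;> norm_num
  have hs0 : s ≠ 0 := by rcases hsp with ⟨rfl, -⟩ | ⟨rfl, -⟩ <;> norm_num
  set c : ℝ := s / 2 with hc
  have hc0 : c ≠ 0 := by rw [hc]; exact div_ne_zero hs0 two_ne_zero
  have hμ : 0 < c * m := by rw [hc]; linarith
  set μ : ℝ := min (c * m) (1 / 16) with hμdef
  have hμ0 : 0 < μ := lt_min hμ (by norm_num)
  have hμ1 : μ ≤ c * m := min_le_left _ _
  have hμ2 : μ ≤ 1 / 16 := min_le_right _ _
  set q : ℝ := 1 - p with hq
  have hq0 : 0 < q := by linarith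
  -- the number of sensors
  obtain ⟨n, hnq⟩ : ∃ n : ℕ, max 100 (2 * q / μ) < n := exists_nat_gt _
  have hn100 : (100 : ℝ) < n := (le_max_left _ _).trans_lt hnq
  have hnμ : 2 * q < n * μ := by
    have := (le_max_right _ _).trans_lt hnq
    rwa [div_lt_iff₀ hμ0] at this
  have hn1 : 1 ≤ n := by
    have : (100 : ℕ) < n := by exact_mod_cast hn100
    omega
  have hX := X0_mono hn1 (by linarith : 0 < p) (by linarith : p < 1 / 2)
  have v0 : X0 n p 0 = 0 := by simp [X0]
  have v1 : X0 n p 1 = p := by simp [X0]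
  -- the sub-execution of the sensors 1, 2, …
  set Y0 : Fin (n + 2) → ℝ := fun j => (X0 n p j.succ - p) / q with hY0
  have hY0m : StrictMono Y0 := by
    intro a b hab
    have := hX (Fin.succ_lt_succ_iff.2 hab)
    exact div_lt_div_of_pos_right (by linarith) hq0
  have hY00 : Y0 0 = 0 := by
    have : X0 n p (0 : Fin (n + 2)).succ = p := v1
    rw [hY0]; simp only [this]; simp
  have hY0l : Y0 (Fin.last (n + 1)) = 1 := by
    have : X0 n p (Fin.last (n + 1)).succ = 1 := X0_last hn1 p
    rw [hY0]; simp only [this]; rw [← hq]; exact div_self hq0.ne'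
  set c' : ℝ := c / q with hc'
  have hc'0 : c' ≠ 0 := div_ne_zero hc0 hq0.ne'
  set Y : ℕ → Fin (n + 2) → ℝ := fun k => (next F (fun _ => c'))^[k] Y0 with hYdef
  have hYz : ∀ k, Y k 0 = 0 := fun k => by rw [hYdef]; simp only; rw [iter_zero, hY00]
  have hYl : ∀ k, Y k (Fin.last (n + 1)) = 1 := fun k => by
    rw [hYdef]; simp only; rw [iter_last, hY0l]
  have hYs : ∀ k, Y (k + 1) = next F (fun _ => c') (Y k) := fun k => by
    rw [hYdef]; simp only; rw [Function.iterate_succ_apply']
  -- some sensor comes near sensor 1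
  have hex : ∃ k, ∃ j : Fin (n + 2), j ≠ 0 ∧ p + q * Y k j ≤ p + μ := by
    by_contra hcon
    push Not at hcon
    obtain ⟨t, θ, h1, h2, hcov⟩ := H (n + 1) (by omega) c' hc'0 1 one_pos
      (syncExec F (fun _ => c') 1 Y0 hY0m hY00 hY0l) (1 / (n + 1 : ℝ)) (by positivity)
    have h3 := (hcov 0).2
    set P := (syncExec F (fun _ => c') 1 Y0 hY0m hY00 hY0l).posAt t θ with hP
    have h4 : P (0 : Fin (n + 1)).castSucc = 0 := by
      rw [hP]
      show (1 - θ) * Y (t / 2) 0 + θ * Y ((t + 1) / 2) 0 = 0
      rw [hYz, hYz]; ring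
    have h5 : P (0 : Fin (n + 1)).succ = (1 - θ) * Y (t / 2) 1 + θ * Y ((t + 1) / 2) 1 := rfl
    have h6 : ∀ k, μ / q < Y k 1 := fun k => by
      have := hcon k 1 (by simp)
      rw [div_lt_iff₀ hq0]
      linarith
    have h7 : μ / q < P (0 : Fin (n + 1)).succ := by
      rw [h5]
      have e1 := h6 (t / 2)
      have e2 := h6 ((t + 1) / 2)
      rcases eq_or_lt_of_le h1 with h | h
      · rw [← h]; linarith
      · nlinarith
    rw [h4, sub_zero] at h3
    have h8 := le_abs_self (P (0 : Fin (n + 1)).succ)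
    have h9 : 1 / ((n + 1 : ℕ) : ℝ) + 1 / (n + 1 : ℝ) ≤ μ / q := by
      push_cast
      rw [← add_div, div_le_div_iff₀ (by positivity) hq0]
      nlinarith
    linarith
  classical
  set K := Nat.find hex with hK
  obtain ⟨js, hjs0, hjs⟩ := Nat.find_spec hex
  rw [← hK] at hjs
  have hbefore : ∀ k < K, ∀ j : Fin (n + 2), j ≠ 0 → p + μ < p + q * Y k j := by
    intro k hk j hj
    by_contra hcon
    exact Nat.find_min hex hk ⟨j, hj, not_lt.1 hcon⟩
  have hge2 : ∀ j : Fin (n + 2), j ≠ 0 → (1 : ℝ) / 2 ≤ X0 n p j.succ := by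
    intro j hj
    apply X0_ge hn1
    have : j.val ≠ 0 := fun h => hj (Fin.ext h)
    simp only [Fin.val_succ]; omega
  have hXY : ∀ j, p + q * Y 0 j = X0 n p j.succ := by
    intro j
    have : Y 0 j = (X0 n p j.succ - p) / q := rfl
    rw [this]; field_simp; ring
  have hKpos : 0 < K := by
    rcases Nat.eq_zero_or_pos K with h | h
    · exfalso
      rw [h, hXY] at hjs
      have := hge2 js hjs0
      linarith
    · exact h
  have hjsl : js ≠ Fin.last (n + 1) := by
    rintro rfl
    rw [hYl] at hjs
    linarith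
  -- configurations before the meeting
  set A : ℕ → Fin (n + 3) → ℝ := fun k => Fin.cons 0 (fun j => p + q * Y k j) with hA
  have hA0 : ∀ k, A k 0 = 0 := fun k => rfl
  have hAs : ∀ k (j : Fin (n + 2)), A k j.succ = p + q * Y k j := fun k j => rfl
  have hA1 : ∀ k, A k 1 = p := fun k => by
    have : A k 1 = p + q * Y k 0 := rfl
    rw [this, hYz]; ring
  have hAX : A 0 = X0 n p := by
    funext i
    rcases Fin.eq_zero_or_eq_succ i with rfl | ⟨j, rfl⟩
    · rw [hA0, v0]
    · rw [hAs, hXY]
  have hAstep : ∀ k < K, ∀ j : Fin (n + 2), j ≠ 0 → j ≠ Fin.last (n + 1) →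
      dest F (fun _ => c) (A k) j.succ = A (k + 1) j.succ := by
    intro k hk j hj hj'
    have hpos : 0 < Y k j := by
      have := hbefore k hk j hj
      by_contra hneg
      nlinarith
    have hs := snap_sub hq0 (by rw [hA0]; linarith : A k 0 < p) (hYz k) (hAs k) j hpos c
    rw [hAs, hYs, next_inner F _ _ hj hj']
    simp only [dest]
    rw [hs, hAs, ← hc', hc']
    field_simp
    ring
  -- the meeting point
  set w : ℝ := max (p + q * Y K js) (p + μ / 2) with hw
  have hw1 : p + μ / 2 ≤ w := le_max_right _ _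
  have hw2 : w ≤ p + μ := max_le hjs (by linarith)
  have hw3 : A K js.succ ≤ w := le_max_left _ _
  set B0 : Fin (n + 3) → ℝ := fun i => if i = 1 ∨ i = js.succ then w else A K i with hB0
  set B : ℕ → Fin (n + 3) → ℝ := fun l => (next F (fun _ => c))^[l] B0 with hB
  set Z : ℕ → Fin (n + 3) → ℝ := fun k => if k < K then A k else B (k - K) with hZ
  have hZA : ∀ k < K, Z k = A k := fun k hk => by rw [hZ]; simp only; rw [if_pos hk]
  have hZB : ∀ l, Z (K + l) = B l := fun l => by
    rw [hZ]; simp only; rw [if_neg (by omega)]; congr 1; omega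
  have hone : (1 : Fin (n + 3)) = (0 : Fin (n + 2)).succ := rfl
  have hlast : Fin.last (n + 2) = (Fin.last (n + 1)).succ := rfl
  have hjs1 : js.succ ≠ 1 := by rw [hone]; exact fun h => hjs0 (Fin.succ_injective _ h)
  have hjsl' : js.succ ≠ Fin.last (n + 2) := by
    rw [hlast]; exact fun h => hjsl (Fin.succ_injective _ h)
  have h1l : (1 : Fin (n + 3)) ≠ Fin.last (n + 2) := by
    rw [hone, hlast]
    intro h
    have := congrArg Fin.val (Fin.succ_injective _ h)
    simp at this
  have hB00 : B0 0 = 0 := by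
    have h1 : (0 : Fin (n + 3)) ≠ 1 := by rw [hone]; exact (Fin.succ_ne_zero _).symm
    have h2 : (0 : Fin (n + 3)) ≠ js.succ := (Fin.succ_ne_zero _).symm
    rw [hB0]; simp only [h1, h2, or_self, if_false]; rfl
  have hB0l : B0 (Fin.last (n + 2)) = 1 := by
    rw [hB0]; simp only [h1l.symm, hjsl'.symm, or_self, if_false]
    rw [hlast, hAs, hYl, hq]; ring
  have hmeet : ∀ l, B l 1 = B l js.succ := by
    intro l
    induction l with
    | zero => simp [hB, hB0]
    | succ l ih =>
      have e : B (l + 1) = next F (fun _ => c) (B l) := by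
        rw [hB]; simp only; rw [Function.iterate_succ_apply']
      rw [e, next_inner F _ _ (by rw [hone]; exact Fin.succ_ne_zero _) h1l,
        next_inner F _ _ (Fin.succ_ne_zero _) hjsl']
      simp only [dest, snap, side, ih]
  have hBs : ∀ l, B (l + 1) = next F (fun _ => c) (B l) := fun l => by
    rw [hB]; simp only; rw [Function.iterate_succ_apply']
  have hBz : ∀ l, B l 0 = 0 := fun l => by rw [hB]; simp only; rw [iter_zero, hB00]
  have hBl : ∀ l, B l (Fin.last (n + 2)) = 1 := fun l => by
    rw [hB]; simp only; rw [iter_last, hB0l]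
  have hZ0 : ∀ k, Z k 0 = 0 := by
    intro k
    rcases lt_or_ge k K with h | h
    · rw [hZA k h, hA0]
    · obtain ⟨l, rfl⟩ := Nat.exists_eq_add_of_le h
      rw [hZB, hBz]
  have hZl : ∀ k, Z k (Fin.last (n + 2)) = 1 := by
    intro k
    rcases lt_or_ge k K with h | h
    · rw [hZA k h, hlast, hAs, hYl, hq]; ring
    · obtain ⟨l, rfl⟩ := Nat.exists_eq_add_of_le h
      rw [hZB, hBl]
  -- the destination computed by sensor 1 at time 0
  have hd1 : dest F (fun _ => c) (A 0) 1 = p + c * m := by
    simp only [dest]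
    rw [hA1, hAX, hc, snap_one hn1 s p hsp]
  -- the phases
  set ev : ℕ → Fin (n + 3) → Option (ℝ × ℝ) := fun k i =>
    if i = 1 ∧ 0 < k ∧ k < K then some (p, p + c * m) else none with hev
  set od : ℕ → Fin (n + 3) → Option (ℝ × ℝ) := fun k i =>
    if i = 1 ∧ k < K then some (p, p + c * m) else some (Z k i, dest F (fun _ => c) (Z k) i)
    with hod
  have hδ : 0 < μ / 2 := by linarith
  have h1step : ∀ k i, i ≠ 0 → i ≠ Fin.last (n + 2) →
      SStep (μ / 2) (dest F (fun _ => c) (Z k) i) (Z k i) (ev k i) (Z k i) (od k i) := by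
    intro k i hi hi'
    by_cases hi1 : i = 1 ∧ k < K
    · obtain ⟨rfl, hk⟩ := hi1
      have e2 : od k 1 = some (p, p + c * m) := by
        rw [hod]; simp only [true_and, hk, if_true]
      rcases Nat.eq_zero_or_pos k with rfl | hk0
      · have e1 : ev 0 1 = none := by rw [hev]; simp
        rw [e1, e2, hZA 0 hk, hd1, hA1]
        exact SStep.look _
      · have e1 : ev k 1 = some (p, p + c * m) := by
          rw [hev]; simp only [true_and, hk, hk0, if_true]
        rw [e1, e2]
        exact SStep.rest _ _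
    · have e1 : ev k i = none := by
        rw [hev]; simp only
        rw [if_neg (fun h => hi1 ⟨h.1, h.2.2⟩)]
      have e2 : od k i = some (Z k i, dest F (fun _ => c) (Z k) i) := by
        rw [hod]; simp only
        rw [if_neg hi1]
      rw [e1, e2]
      exact SStep.look _
  have h2step : ∀ k i, i ≠ 0 → i ≠ Fin.last (n + 2) →
      SStep (μ / 2) (dest F (fun _ => c) (Z k) i) (Z k i) (od k i) (Z (k + 1) i)
        (ev (k + 1) i) := by
    intro k i hi hi'
    rcases lt_or_ge k K with hk | hk
    · rcases Nat.lt_or_ge (k + 1) K with hk1 | hk1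
      · -- before the meeting
        by_cases hi1 : i = 1
        · subst hi1
          have e1 : od k 1 = some (p, p + c * m) := by
            rw [hod]; simp only [true_and, hk, if_true]
          have e2 : ev (k + 1) 1 = some (p, p + c * m) := by
            rw [hev]; simp only [true_and, hk1, Nat.succ_pos, if_true]
          rw [e1, e2, hZA k hk, hZA (k + 1) hk1, hA1, hA1]
          exact SStep.rest _ _
        · have e1 : od k i = some (Z k i, dest F (fun _ => c) (Z k) i) := by
            rw [hod]; simp only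
            rw [if_neg (fun h => hi1 h.1)]
          have e2 : ev (k + 1) i = none := by
            rw [hev]; simp only
            rw [if_neg (fun h => hi1 h.1)]
          obtain ⟨j, rfl⟩ := Fin.exists_succ_eq.2 hi
          have hj0 : j ≠ 0 := fun h => hi1 (by rw [h]; rfl)
          have hjl : j ≠ Fin.last (n + 1) := fun h => hi' (by rw [h]; rfl)
          rw [e1, e2, hZA k hk, hZA (k + 1) hk1, hAstep k hk j hj0 hjl]
          exact SStep.stop _ _ _ _ (right_mem_segment ℝ _ _) (Or.inl rfl)
      · -- the meeting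
        have hkK : k + 1 = K := by omega
        have hZK : Z (k + 1) = B0 := by
          have hZB0 : Z K = B 0 := hZB 0
          rw [hkK, hZB0]; rfl
        have e2 : ev (k + 1) i = none := by
          rw [hev]; simp only
          rw [if_neg (by rintro ⟨-, -, h⟩; omega)]
        by_cases hi1 : i = 1
        · subst hi1
          have e1 : od k 1 = some (p, p + c * m) := by
            rw [hod]; simp only [true_and, hk, if_true]
          have e3 : B0 1 = w := by rw [hB0]; simp
          rw [e1, e2, hZA k hk, hZK, hA1, e3]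
          refine SStep.stop _ _ _ _ (seg_mem (Or.inl ⟨by linarith, by linarith⟩)) (Or.inr ?_)
          rw [abs_of_nonneg (by linarith)]
          linarith
        · have e1 : od k i = some (Z k i, dest F (fun _ => c) (Z k) i) := by
            rw [hod]; simp only
            rw [if_neg (fun h => hi1 h.1)]
          obtain ⟨j, rfl⟩ := Fin.exists_succ_eq.2 hi
          have hj0 : j ≠ 0 := fun h => hi1 (by rw [h]; rfl)
          have hjl : j ≠ Fin.last (n + 1) := fun h => hi' (by rw [h]; rfl)
          rw [e1, e2, hZA k hk, hZK, hAstep k hk j hj0 hjl, hkK]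
          by_cases hjj : j = js
          · subst hjj
            have e3 : B0 j.succ = w := by rw [hB0]; simp
            rw [e3]
            have hfar := hbefore k hk j hj0
            rw [← hAs] at hfar
            refine SStep.stop _ _ _ _ (seg_mem (Or.inr ⟨hw3, by linarith⟩)) ?_
            rcases max_choice (p + q * Y K j) (p + μ / 2) with h | h
            · left; rw [hw, h, hAs]
            · right
              rw [hw, h, abs_of_nonpos (by linarith)]
              linarith
          · have hjj' : j.succ ≠ js.succ := fun h => hjj (Fin.succ_injective _ h)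
            have e3 : B0 j.succ = A K j.succ := by
              rw [hB0]; simp only [hi1, hjj', or_self, if_false]
            rw [e3]
            exact SStep.stop _ _ _ _ (right_mem_segment ℝ _ _) (Or.inl rfl)
    · -- after the meeting
      obtain ⟨l, rfl⟩ := Nat.exists_eq_add_of_le hk
      have e1 : od (K + l) i = some (Z (K + l) i, dest F (fun _ => c) (Z (K + l)) i) := by
        rw [hod]; simp only
        rw [if_neg (by rintro ⟨-, h⟩; omega)]
      have e2 : ev (K + l + 1) i = none := by
        rw [hev]; simp only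
        rw [if_neg (by rintro ⟨-, -, h⟩; omega)]
      have e3 : Z (K + l + 1) = B (l + 1) := by rw [add_assoc, hZB]
      rw [e1, e2, e3, hZB, hBs, next_inner F _ _ hi hi']
      exact SStep.stop _ _ _ _ (right_mem_segment ℝ _ _) (Or.inl rfl)
  have h3fair : ∀ i, i ≠ 0 → i ≠ Fin.last (n + 2) → ∀ T, ∃ k ≥ T, od k i ≠ none ∧
      ev (k + 1) i = none := by
    intro i _ _ T
    refine ⟨K + T, by omega, ?_, ?_⟩
    · rw [hod]; simp only
      split_ifs <;> simp
    · rw [hev]; simp only
      rw [if_neg (by rintro ⟨-, -, h⟩; omega)]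
  have hZ0m : StrictMono (Z 0) := by rw [hZA 0 hKpos, hAX]; exact hX
  have hev0 : ∀ i, ev 0 i = none := by intro i; rw [hev]; simp
  -- the execution and the contradiction
  set N : ℝ := ((n + 2 : ℕ) : ℝ) with hN
  have hN100 : 100 < N := by rw [hN]; push_cast; linarith
  obtain ⟨t, θ, hθ0, hθ1, hcov⟩ := H (n + 2) (by omega) c hc0 (μ / 2) hδ
    (mkExec F (fun _ => c) (μ / 2) Z ev od hZ0m hev0 hZ0 hZl h1step h2step h3fair)
    (1 / N ^ 2) (by positivity)
  set P := (mkExec F (fun _ => c) (μ / 2) Z ev od hZ0m hev0 hZ0 hZl h1step h2step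
    h3fair).posAt t θ with hP
  have hPi : ∀ i, P i = (1 - θ) * Z (t / 2) i + θ * Z ((t + 1) / 2) i := fun i => rfl
  have hP0 : P 0 = 0 := by rw [hPi, hZ0, hZ0]; ring
  have hPl : P (Fin.last (n + 2)) = 1 := by rw [hPi, hZl, hZl]; ring
  rcases lt_or_ge (t / 2) K with hk | hk
  · -- sensor 1 is far from sensor 0
    have hZ1 : ∀ k, k ≤ K → p ≤ Z k 1 := by
      intro k hk
      rcases eq_or_lt_of_le hk with rfl | hk
      · have hZB0 : Z K = B 0 := hZB 0
        rw [hZB0]
        have e3 : B 0 1 = w := by rw [hB]; simp [hB0]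
        rw [e3]; linarith
      · rw [hZA k hk, hA1]
    have e1 := hZ1 (t / 2) hk.le
    have e2 := hZ1 ((t + 1) / 2) (by omega)
    have e3 : p ≤ P 1 := by rw [hPi]; nlinarith
    have e4 := (hcov 0).2
    have e5 : P (0 : Fin (n + 2)).succ = P 1 := rfl
    have e6 : P (0 : Fin (n + 2)).castSucc = P 0 := rfl
    rw [e5, e6, hP0, sub_zero, ← hN] at e4
    have e7 := le_abs_self (P 1)
    have e8 : 1 / N ≤ 1 / 100 := one_div_le_one_div_of_le (by norm_num) hN100.le
    have e9 : 1 / N ^ 2 ≤ 1 / 100 := by
      apply one_div_le_one_div_of_le (by norm_num)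
      nlinarith
    linarith
  · -- sensors 1 and js.succ are at the same place
    have hZm : ∀ k, K ≤ k → Z k 1 = Z k js.succ := by
      intro k hk
      obtain ⟨l, rfl⟩ := Nat.exists_eq_add_of_le hk
      rw [hZB]; exact hmeet l
    have e1 := hZm (t / 2) hk
    have e2 := hZm ((t + 1) / 2) (by omega)
    have e3 : P 1 = P js.succ := by rw [hPi, hPi, e1, e2]
    have hlt : (1 : Fin (n + 3)) < js.succ := by
      rw [hone]
      exact Fin.succ_lt_succ_iff.2 (Fin.pos_of_ne_zero hjs0)
    refine not_covering_of_meet (by omega) (by positivity) ?_ hP0 hPl hlt e3 hcov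
    rw [← hN]
    have hN0 : N ≠ 0 := by linarith
    have : N * (N * (1 / N ^ 2)) = 1 := by field_simp
    rw [this]
    have : 0 < N * (1 / N ^ 2) := by positivity
    linarith

/-- **Q1 of MP_362848_lc**: the answer is no. Approximate covering of the segment is not solvable
under the ASYNC scheduler with neighbour visibility; moreover, every protocol fails in some
execution in which all sensors share the same local coordinate system. -/
theorem result :
    ¬ Solvable ∧
    ∀ F : Protocol, ∃ n ≥ 1, ∃ c : ℝ, c ≠ 0 ∧ ∃ δ > 0, ∃ E : Execution F n (fun _ => c) δ,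
      ∃ ε > 0, ∀ t θ, 0 ≤ θ → θ ≤ 1 → ¬ Covering n ε (E.posAt t θ) := by
  refine ⟨?_, main⟩
  rintro ⟨F, hF⟩
  obtain ⟨n, hn, c, hc, δ, hδ, E, ε, hε, h⟩ := main F
  obtain ⟨t, θ, h1, h2, h3⟩ := hF n hn (fun _ => c) (fun _ => hc) δ hδ E ε hε
  exact h t θ h1 h2 h3

end Pool.Agent.Results.MP_362848_lc.AsyncImpossible
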